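import Mathlib

namespace Pool.Agent.Results.MP_dc3585_lc.Combs

open Set Cardinal

universe u

lemma small_init {α : Type*} [LinearOrder α] [WellFoundedLT α] {B : Set α} (hB : ¬ B.Countable) :
    ∃ B' ⊆ B, ¬ B'.Countable ∧ ∀ x ∈ B', {y ∈ B' | y ≤ x}.Countable := by
  refine ⟨{x ∈ B | {y ∈ B | y < x}.Countable}, fun x hx => hx.1, fun hc => ?_, fun x hx => ?_⟩
  · have hne : (B \ {x ∈ B | {y ∈ B | y < x}.Countable}).Nonempty := by
      by_contra h
      exact hB (hc.mono (sdiff_eq_empty.1 (not_nonempty_iff_eq_empty.1 h)))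
    obtain ⟨x, hx, hm⟩ := wellFounded_lt.has_min _ hne
    refine hx.2 ⟨hx.1, hc.mono fun y hy => ?_⟩
    by_contra h
    exact hm y ⟨hy.1, h⟩ hy.2
  · refine (hx.2.insert x).mono fun y hy => ?_
    rcases hy.2.eq_or_lt with h | h
    · exact Or.inl h
    · exact Or.inr ⟨hy.1.1, h⟩

lemma cond {α : Type*} (g : α → ℝ) {B : Set α} (hg : InjOn g B) (hB : ¬ B.Countable) :
    ∃ q : ℝ, ¬ {x ∈ B | g x < q}.Countable ∧ ¬ {x ∈ B | q < g x}.Countable := by
  by_contra h
  push Not at h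
  let U : Set α := ⋃ q : ℚ, ⋃ _ : {x ∈ B | g x < q}.Countable, {x ∈ B | g x < q}
  let V : Set α := ⋃ q : ℚ, ⋃ _ : {x ∈ B | (q : ℝ) < g x}.Countable, {x ∈ B | (q : ℝ) < g x}
  have hU : U.Countable := countable_iUnion fun q => countable_iUnion fun hq => hq
  have hV : V.Countable := countable_iUnion fun q => countable_iUnion fun hq => hq
  have key : ∀ x ∈ B \ (U ∪ V), ∀ y ∈ B \ (U ∪ V), ¬ g x < g y := by
    intro x hx y hy hxy
    obtain ⟨q, h1, h2⟩ := exists_rat_btwn hxy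
    by_cases c : {x ∈ B | g x < q}.Countable
    · exact hx.2 (Or.inl (mem_iUnion₂.2 ⟨q, c, hx.1, h1⟩))
    · exact hy.2 (Or.inr (mem_iUnion₂.2 ⟨q, h q c, hy.1, h2⟩))
  have hs : (B \ (U ∪ V)).Subsingleton := fun x hx y hy =>
    hg hx.1 hy.1 (le_antisymm (not_lt.1 (key y hy x hx)) (not_lt.1 (key x hx y hy)))
  refine hB ((hs.countable.union (hU.union hV)).mono fun x hx => ?_)
  by_cases c : x ∈ U ∪ V
  · exact Or.inr c
  · exact Or.inl ⟨hx, c⟩

lemma avoid {α : Type*} {B : Set α} (hB : ¬ B.Countable) (Y : Finset α) (F : α → Set α)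
    (hF : ∀ y ∈ Y, (F y).Countable) : ∃ z ∈ B, ∀ y ∈ Y, z ∉ F y := by
  by_contra h
  push Not at h
  refine hB ((Y.countable_toSet.biUnion hF).mono fun z hz => ?_)
  obtain ⟨y, hy, h'⟩ := h z hz
  exact mem_biUnion hy h'

section

variable {K S : Type*} [LinearOrder K] [WellFoundedLT K] [LinearOrder S] [WellFoundedLT S]
  (r : K → ℝ) (e : S → K → Bool)

def IsD (x y : K → Bool) (d : K) : Prop := x d ≠ y d ∧ ∀ c < d, x c = y c

omit [WellFoundedLT K] in
lemma IsD.uniq {x y : K → Bool} {d d' : K} (h : IsD x y d) (h' : IsD x y d') : d = d' := by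
  rcases lt_trichotomy d d' with c | c | c
  · exact absurd (h'.2 d c) h.1
  · exact c
  · exact absurd (h.2 d' c) h'.1

lemma exD {x y : K → Bool} (h : x ≠ y) : ∃ d, IsD x y d := by
  obtain ⟨d, hd, hm⟩ := wellFounded_lt.has_min {d | x d ≠ y d} (Function.ne_iff.1 h)
  exact ⟨d, hd, fun c hc => by_contra fun h' => hm c h' hc⟩

def col (x y z : S) : Prop := ∃ d d', IsD (e x) (e y) d ∧ IsD (e y) (e z) d' ∧
  ((d < d' ∧ r d < r d') ∨ (¬ d < d' ∧ e z d' = true))

omit [WellFoundedLT K] [LinearOrder S] [WellFoundedLT S] in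
lemma col_iff {x y z : S} {d d' : K} (h : IsD (e x) (e y) d) (h' : IsD (e y) (e z) d') :
    col r e x y z ↔ ((d < d' ∧ r d < r d') ∨ (¬ d < d' ∧ e z d' = true)) := by
  constructor
  · rintro ⟨a, a', h1, h2, h3⟩
    rwa [h.uniq h1, h'.uniq h2]
  · exact fun h3 => ⟨d, d', h, h', h3⟩

def Split (B : Set S) : Prop := ∃ (d : K) (m : K → Bool), ∀ b : Bool,
  ¬ {y ∈ B | (∀ c < d, e y c = m c) ∧ e y d = b}.Countable

omit [WellFoundedLT S] in
lemma caseB (he : Function.Injective e) {A : Set S} (hA : ∀ x ∈ A, {y ∈ A | y ≤ x}.Countable)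
    (hs : ∀ B ⊆ A, ¬ B.Countable → Split e B) (b : Bool) (n : ℕ) :
    ∀ B ⊆ A, ¬ B.Countable → ∃ Y : Finset S, ↑Y ⊆ B ∧ Y.card = n ∧
      ∀ x ∈ Y, ∀ y ∈ Y, ∀ z ∈ Y, x < y → y < z → (col r e x y z ↔ b = true) := by
  classical
  induction n with
  | zero => exact fun B _ _ => ⟨∅, by simp, rfl, by simp⟩
  | succ n ih =>
    intro B hB hu
    obtain ⟨d, m, hd⟩ := hs B hB hu
    obtain ⟨Y, h1, h2, h3⟩ := ih _ (fun y hy => hB hy.1) (hd (!b))
    obtain ⟨z, hz, hz'⟩ := avoid (hd b) Y (fun x => {y ∈ A | y ≤ x})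
      (fun y hy => hA y (hB (h1 hy).1))
    have hlt : ∀ y ∈ Y, y < z := fun y hy => not_le.1 fun h => hz' y hy ⟨hB hz.1, h⟩
    refine ⟨insert z Y, ?_, ?_, ?_⟩
    · rw [Finset.coe_insert]
      exact insert_subset hz.1 fun y hy => (h1 hy).1
    · rw [Finset.card_insert_of_notMem fun h => lt_irrefl _ (hlt z h), h2]
    · have top : ∀ x ∈ insert z Y, ∀ y ∈ insert z Y, x < y → x ∈ Y := by
        intro x hx y hy hxy
        rcases Finset.mem_insert.1 hx with rfl | h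
        · rcases Finset.mem_insert.1 hy with rfl | h
          · exact absurd hxy (lt_irrefl _)
          · exact absurd hxy (hlt y h).not_gt
        · exact h
      intro x hx y hy w hw hxy hyw
      have hx' := top x hx y hy hxy
      have hy' := top y hy w hw hyw
      rcases Finset.mem_insert.1 hw with rfl | h
      · obtain ⟨a, ha⟩ := exD (he.ne hxy.ne)
        have hyz : IsD (e y) (e w) d := by
          refine ⟨?_, fun c hc => ((h1 hy').2.1 c hc).trans (hz.2.1 c hc).symm⟩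
          rw [(h1 hy').2.2, hz.2.2]
          cases b <;> simp
        have : ¬ a < d := fun h => ha.1 (((h1 hx').2.1 a h).trans ((h1 hy').2.1 a h).symm)
        rw [col_iff r e ha hyz, hz.2.2]
        simp [this]
      · exact h3 x hx' y hy' w h hxy hyw

omit [WellFoundedLT K] [WellFoundedLT S] in
lemma chainA (hr : Function.Injective r) {A : Set S} (g : S → K) (hg : InjOn g A)
    (hA : ∀ x ∈ A, {y ∈ A | y ≤ x}.Countable) (hA' : ∀ x ∈ A, {y ∈ A | g y ≤ g x}.Countable)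
    (b : Bool) (n : ℕ) :
    ∀ B ⊆ A, ¬ B.Countable → ∃ Y : Finset S, ↑Y ⊆ B ∧ Y.card = n ∧
      ∀ x ∈ Y, ∀ y ∈ Y, x < y → g x < g y ∧ (r (g x) < r (g y) ↔ b = true) := by
  classical
  induction n with
  | zero => exact fun B _ _ => ⟨∅, by simp, rfl, by simp⟩
  | succ n ih =>
    intro B hB hu
    obtain ⟨B1, B2, s1, s2, u1, u2, hh⟩ : ∃ B1 B2 : Set S, B1 ⊆ B ∧ B2 ⊆ B ∧ ¬ B1.Countable ∧
        ¬ B2.Countable ∧ ∀ x ∈ B1, ∀ y ∈ B2, (r (g x) < r (g y) ↔ b = true) := by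
      obtain ⟨q, q1, q2⟩ := cond (fun x => r (g x)) (B := B)
        (fun x hx y hy h => hg (hB hx) (hB hy) (hr h)) hu
      cases b
      · exact ⟨_, _, fun x hx => hx.1, fun x hx => hx.1, q2, q1, fun x hx y hy => by
          simpa using (hy.2.trans hx.2).le⟩
      · exact ⟨_, _, fun x hx => hx.1, fun x hx => hx.1, q1, q2, fun x hx y hy => by
          simpa using hx.2.trans hy.2⟩
    obtain ⟨Y, h1, h2, h3⟩ := ih _ (s1.trans hB) u1
    obtain ⟨z, hz, hz'⟩ := avoid u2 Y (fun x => {y ∈ A | y ≤ x} ∪ {y ∈ A | g y ≤ g x})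
      (fun y hy => (hA y (hB (s1 (h1 hy)))).union (hA' y (hB (s1 (h1 hy)))))
    have hlt : ∀ y ∈ Y, y < z := fun y hy => not_le.1 fun h => hz' y hy (Or.inl ⟨hB (s2 hz), h⟩)
    have hlt' : ∀ y ∈ Y, g y < g z := fun y hy =>
      not_le.1 fun h => hz' y hy (Or.inr ⟨hB (s2 hz), h⟩)
    refine ⟨insert z Y, ?_, ?_, ?_⟩
    · rw [Finset.coe_insert]
      exact insert_subset (s2 hz) fun y hy => s1 (h1 hy)
    · rw [Finset.card_insert_of_notMem fun h => lt_irrefl _ (hlt z h), h2]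
    · intro x hx y hy hxy
      rcases Finset.mem_insert.1 hx with rfl | h
      · rcases Finset.mem_insert.1 hy with rfl | h
        · exact absurd hxy (lt_irrefl _)
        · exact absurd hxy (hlt y h).not_gt
      · rcases Finset.mem_insert.1 hy with rfl | h'
        · exact ⟨hlt' x h, hh x (h1 h) y hz⟩
        · exact h3 x h y h' hxy

omit [LinearOrder S] [WellFoundedLT S] in
lemma comb (he : Function.Injective e) {B : Set S} (hB : ¬ B.Countable) (hs : ¬ Split e B) :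
    ∃ m : K → Bool, ¬ {d | ∃ y ∈ B, IsD (e y) m d}.Countable := by
  classical
  let m : K → Bool := fun d => decide (∃ x : K → Bool, x d = true ∧
    ¬ {y ∈ B | ∀ c ≤ d, e y c = x c}.Countable)
  refine ⟨m, fun hc => hB ?_⟩
  have hE : ∀ d, {y ∈ B | IsD (e y) m d}.Countable := by
    intro d
    by_contra hu
    obtain ⟨x, hx⟩ : {y ∈ B | IsD (e y) m d}.Nonempty :=
      nonempty_iff_ne_empty.2 fun h => hu (h ▸ countable_empty)
    have hu' : ¬ {y ∈ B | ∀ c ≤ d, e y c = e x c}.Countable := by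
      refine fun h => hu (h.mono fun y hy => And.intro hy.1 fun c hc => ?_)
      rcases hc.eq_or_lt with rfl | h
      · have a1 := hy.2.1
        have a2 := hx.2.1
        revert a1 a2
        cases e y c <;> cases e x c <;> cases m c <;> simp
      · exact (hy.2.2 c h).trans (hx.2.2 c h).symm
    have h1 := hx.2.1
    cases hxd : e x d
    · have hm : m d = true := by
        rw [hxd] at h1
        simpa using h1
      obtain ⟨x', a1, a2⟩ := of_decide_eq_true hm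
      have hne : e x ≠ x' := fun h => by simp [← h, hxd] at a1
      obtain ⟨a, ha⟩ := exD hne
      have had : a ≤ d := not_lt.1 fun h => by simpa [hxd, a1] using ha.2 d h
      refine hs ⟨a, x', fun b => ?_⟩
      by_cases hb : b = x' a
      · exact fun h => a2 (h.mono fun y hy =>
          And.intro hy.1 ⟨fun c hc => hy.2 c (hc.le.trans had), hb ▸ hy.2 a had⟩)
      · refine fun h => hu' (h.mono fun y hy =>
          And.intro hy.1 ⟨fun c hc => (hy.2 c (hc.le.trans had)).trans (ha.2 c hc), ?_⟩)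
        have a3 := ha.1
        rw [hy.2 a had]
        revert hb a3
        cases b <;> cases e x a <;> cases x' a <;> simp
    · exact h1 (hxd.trans (decide_eq_true ⟨e x, hxd, hu'⟩).symm)
  have h0 : {y | e y = m}.Countable :=
    Set.Subsingleton.countable fun x hx y hy => he (hx.trans hy.symm)
  refine (h0.union (hc.biUnion fun d _ => hE d)).mono fun y hy => ?_
  by_cases c : e y = m
  · exact Or.inl c
  · obtain ⟨d, hd⟩ := exD c
    exact Or.inr (mem_biUnion (show d ∈ {d | ∃ y ∈ B, IsD (e y) m d} from ⟨y, hy, hd⟩) ⟨hy, hd⟩)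

lemma main (hr : Function.Injective r) (he : Function.Injective e) {A : Set S}
    (hA : ¬ A.Countable) (b : Bool) (n : ℕ) : ∃ Y : Finset S, ↑Y ⊆ A ∧ Y.card = n ∧
      ∀ x ∈ Y, ∀ y ∈ Y, ∀ z ∈ Y, x < y → y < z → (col r e x y z ↔ b = true) := by
  obtain ⟨A', s, u, hA'⟩ := small_init hA
  by_cases hs : ∀ B ⊆ A', ¬ B.Countable → Split e B
  · obtain ⟨Y, h1, h2⟩ := caseB r e he hA' hs b n A' subset_rfl u
    exact ⟨Y, h1.trans s, h2⟩
  push Not at hs
  obtain ⟨B, sB, uB, hB⟩ := hs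
  obtain ⟨m, hm⟩ := comb e he uB hB
  obtain ⟨D, sD, uD, hD⟩ := small_init hm
  obtain ⟨a0, -⟩ : A.Nonempty := nonempty_iff_ne_empty.2 fun h => hA (h ▸ countable_empty)
  haveI : Nonempty S := ⟨a0⟩
  choose! p p1 p2 using fun d (hd : d ∈ D) => sD hd
  have pinj : InjOn p D := fun d hd d' hd' h => (p2 d hd).uniq (h ▸ p2 d' hd')
  obtain ⟨d0, hd0⟩ : D.Nonempty := nonempty_iff_ne_empty.2 fun h => uD (h ▸ countable_empty)
  haveI : Nonempty K := ⟨d0⟩
  let g : S → K := Function.invFunOn p D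
  have gp : ∀ d ∈ D, g (p d) = d := fun d hd => pinj.leftInvOn_invFunOn hd
  have sA : p '' D ⊆ A' := by
    rintro _ ⟨d, hd, rfl⟩
    exact sB (p1 d hd)
  obtain ⟨Y, h1, h2, h3⟩ := chainA r hr (A := p '' D) g (by
      rintro _ ⟨d, hd, rfl⟩ _ ⟨d', hd', rfl⟩ h
      rw [gp d hd, gp d' hd'] at h
      rw [h])
    (fun x hx => (hA' x (sA hx)).mono fun y hy => And.intro (sA hy.1) hy.2) (by
      rintro _ ⟨d, hd, rfl⟩
      refine ((hD d hd).image p).mono ?_
      rintro _ ⟨⟨d', hd', rfl⟩, h⟩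
      rw [gp d hd, gp d' hd'] at h
      exact ⟨d', ⟨hd', h⟩, rfl⟩) b n _ subset_rfl
    (fun h => uD (countable_of_injective_of_countable_image pinj h))
  refine ⟨Y, h1.trans (sA.trans s), h2, ?_⟩
  have key : ∀ x ∈ Y, ∀ y ∈ Y, x < y → IsD (e x) (e y) (g x) := by
    intro x hx y hy hxy
    have hl := (h3 x hx y hy hxy).1
    obtain ⟨d, hd, rfl⟩ := h1 hx
    obtain ⟨d', hd', rfl⟩ := h1 hy
    rw [gp d hd] at hl ⊢
    rw [gp d' hd'] at hl
    exact ⟨by rw [(p2 d' hd').2 d hl]; exact (p2 d hd).1,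
      fun c hc => ((p2 d hd).2 c hc).trans ((p2 d' hd').2 c (hc.trans hl)).symm⟩
  intro x hx y hy z hz hxy hyz
  rw [col_iff r e (key x hx y hy hxy) (key y hy z hz hyz), ← (h3 x hx y hy hxy).2]
  simp [(h3 x hx y hy hxy).1]

end

theorem result (S : Type u) (hS : #S = 2 ^ (2 ^ ℵ₀ : Cardinal.{u})) :
    ∃ C : Fin 2 → Set (Finset S), (∀ t : Finset S, t.card = 3 ↔ t ∈ C 0 ∪ C 1) ∧
      Disjoint (C 0) (C 1) ∧ ∀ A : Set S, #A = ℵ₁ → ∀ (i : Fin 2) (n : ℕ),
        ∃ Y : Finset S, ↑Y ⊆ A ∧ Y.card = n ∧ ∀ t ⊆ Y, t.card = 3 → t ∈ C i := by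
  obtain ⟨o1, w1⟩ := exists_wellFoundedLT S
  obtain ⟨o2, w2⟩ := exists_wellFoundedLT (ULift.{u} ℝ)
  obtain ⟨e⟩ : Nonempty (S ≃ (ULift.{u} ℝ → Bool)) := by
    rw [← Cardinal.lift_mk_eq', hS]
    simp [Cardinal.mk_real]
  let P : Finset S → Prop := fun t => ∀ x ∈ t, ∀ y ∈ t, ∀ z ∈ t, x < y → y < z →
    @col _ _ o2 ULift.down e x y z
  refine ⟨![{t | t.card = 3 ∧ P t}, {t | t.card = 3 ∧ ¬ P t}], fun t => ?_, ?_, ?_⟩
  · simp only [Matrix.cons_val_zero, Matrix.cons_val_one, mem_union, mem_ofPred_eq]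
    tauto
  · simp only [Matrix.cons_val_zero, Matrix.cons_val_one]
    exact Set.disjoint_left.2 fun t h h' => h'.2 h.2
  · intro A hA i n
    have hu : ¬ A.Countable := by
      rw [← Cardinal.le_aleph0_iff_set_countable, hA, not_le]
      exact aleph0_lt_aleph_one
    fin_cases i
    · obtain ⟨Y, h1, h2, h3⟩ := @main _ _ o2 w2 o1 w1 ULift.down e ULift.down_injective
        e.injective A hu true n
      exact ⟨Y, h1, h2, fun t ht hc => ⟨hc, fun x hx y hy z hz a b =>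
        (h3 x (ht hx) y (ht hy) z (ht hz) a b).2 rfl⟩⟩
    · obtain ⟨Y, h1, h2, h3⟩ := @main _ _ o2 w2 o1 w1 ULift.down e ULift.down_injective
        e.injective A hu false n
      refine ⟨Y, h1, h2, fun t ht hc => ⟨hc, fun hp => ?_⟩⟩
      have m := fun j => t.orderEmbOfFin_mem hc j
      have a : t.orderEmbOfFin hc 0 < t.orderEmbOfFin hc 1 := (t.orderEmbOfFin hc).strictMono (by decide)
      have b : t.orderEmbOfFin hc 1 < t.orderEmbOfFin hc 2 := (t.orderEmbOfFin hc).strictMono (by decide)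
      simpa using (h3 _ (ht (m 0)) _ (ht (m 1)) _ (ht (m 2)) a b).1 (hp _ (m 0) _ (m 1) _ (m 2) a b)

end Pool.Agent.Results.MP_dc3585_lc.Combs
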